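import Mathlib

/-!
Counterexample to the Benes conjecture `R(L) ≤ 2 F(L)` for simple regular ordered
2-stage graphs: a simple 5-regular graph `L` on `10 + 10` vertices such that `L^2` is
externally connected while `L^4` is not rearrangeable.
-/

namespace Pool.Agent.Results.MP_dc8297_co.BenesFalse

/-- An ordered 2-stage graph whose two classes both have `n` vertices, labelled in order by
`Fin n`; `L i j` is the number of (parallel) edges joining the `i`-th vertex of the first
class to the `j`-th vertex of the second class. -/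
abbrev TwoStage (n : ℕ) : Type := Fin n → Fin n → ℕ

/-- No multiple edges. -/
def IsSimple {n : ℕ} (L : TwoStage n) : Prop := ∀ i j, L i j ≤ 1

/-- All vertices (of both classes) have degree `k`. -/
def IsRegular {n : ℕ} (L : TwoStage n) (k : ℕ) : Prop :=
  (∀ i, ∑ j, L i j = k) ∧ (∀ j, ∑ i, L i j = k)

/-- A plain path of the `(m+1)`-stage graph `L^m`: one vertex in each of the `m+1` classes,
and for each of the `m` copies of `L` one of the parallel edges of that copy which join the
two consecutive vertices. -/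
structure PlainPath {n : ℕ} (L : TwoStage n) (m : ℕ) where
  vert : Fin (m + 1) → Fin n
  edge : (s : Fin m) → Fin (L (vert s.castSucc) (vert s.succ))

/-- The path `p` joins the source `a` to the target `b`. -/
def PlainPath.Joins {n : ℕ} {L : TwoStage n} {m : ℕ} (p : PlainPath L m) (a b : Fin n) : Prop :=
  p.vert 0 = a ∧ p.vert (Fin.last m) = b

/-- The paths `p` and `q` of `L^m` have no edge in common. -/
def EdgeDisjoint {n : ℕ} {L : TwoStage n} {m : ℕ} (p q : PlainPath L m) : Prop :=
  ∀ s : Fin m, ¬ (p.vert s.castSucc = q.vert s.castSucc ∧ p.vert s.succ = q.vert s.succ ∧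
    (p.edge s).val = (q.edge s).val)

/-- `L^m` is externally connected. -/
def ExternallyConnected {n : ℕ} (L : TwoStage n) (m : ℕ) : Prop :=
  ∀ a b : Fin n, ∃ p : PlainPath L m, p.Joins a b

/-- `M` (given by its edge multiplicities) is a mask for `L^m`, `m ≥ 1`: a 2-stage multigraph
with the same sources and targets, in which every vertex has the degree it has in `L^m`. -/
def IsMask {n : ℕ} (L : TwoStage n) (M : Fin n → Fin n → ℕ) : Prop :=
  (∀ a, ∑ b, M a b = ∑ b, L a b) ∧ (∀ b, ∑ a, M a b = ∑ a, L a b)

/-- `L^m` is rearrangeable: for every mask `M` there are pairwise edge-disjoint plain paths,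
one for each edge of `M` (the `M a b` parallel edges from `a` to `b` are indexed by
`Fin (M a b)`), joining the two ends of that edge. -/
def Rearrangeable {n : ℕ} (L : TwoStage n) (m : ℕ) : Prop :=
  ∀ M : Fin n → Fin n → ℕ, IsMask L M →
    ∃ P : (Σ a : Fin n, Σ b : Fin n, Fin (M a b)) → PlainPath L m,
      (∀ e, (P e).Joins e.1 e.2.1) ∧ (∀ e e', e ≠ e' → EdgeDisjoint (P e) (P e'))

/-- The counterexample. In blocks of size 5 it is `[[J - I, I], [I, J - C]]`, where `J` is
the all-ones matrix and `C` the cyclic permutation matrix. -/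
def L0 : TwoStage 10 := fun i j =>
  if i.val < 5 then
    (if j.val < 5 then (if i.val = j.val then 0 else 1)
      else (if j.val = i.val + 5 then 1 else 0))
  else
    (if j.val < 5 then (if i.val = j.val + 5 then 1 else 0)
      else (if (i.val + 1) % 5 = j.val % 5 then 0 else 1))

/-- The bad mask: every source of the first half is joined to every target of the second
half and conversely. -/
def M0 : Fin 10 → Fin 10 → ℕ := fun a b => if (a.val < 5 ↔ 5 ≤ b.val) then 1 else 0

lemma L0_simple : IsSimple L0 := by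
  unfold IsSimple; decide

lemma L0_regular : IsRegular L0 5 := by
  unfold IsRegular; decide

lemma M0_mask : IsMask L0 M0 := by
  unfold IsMask; decide

lemma L0_conn : ∀ a b : Fin 10, ∃ z : Fin 10, 0 < L0 a z ∧ 0 < L0 z b := by
  decide

lemma L0_ext : ExternallyConnected L0 2 := by
  intro a b
  obtain ⟨z, h1, h2⟩ := L0_conn a b
  have hpos : ∀ s : Fin 2, 0 < L0 ((![a, z, b] : Fin 3 → Fin 10) s.castSucc)
      ((![a, z, b] : Fin 3 → Fin 10) s.succ) := by
    intro s
    fin_cases s
    · simpa using h1
    · simpa using h2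
  exact ⟨⟨![a, z, b], fun s => ⟨0, hpos s⟩⟩, rfl, rfl⟩

/-- A step of a path from the first half to the second half goes from `i` to `i + 5`. -/
lemma L0_cross : ∀ i j : Fin 10, i.val < 5 → 5 ≤ j.val → 0 < L0 i j → j.val = i.val + 5 := by
  decide

/-- A sequence which starts below 5 and ends at 5 or above has a crossing step. -/
lemma exists_cross (v : Fin 5 → Fin 10) (h0 : (v 0).val < 5) (h1 : 5 ≤ (v (Fin.last 4)).val) :
    ∃ s : Fin 4, (v s.castSucc).val < 5 ∧ 5 ≤ (v s.succ).val := by
  by_contra hcon
  push Not at hcon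
  have a1 := hcon 0 h0
  have a2 := hcon 1 a1
  have a3 := hcon 2 a2
  have a4 := hcon 3 a3
  exact absurd h1 (not_le.mpr a4)

lemma not_rearrangeable : ¬ Rearrangeable L0 4 := by
  intro hR
  obtain ⟨P, hJ, hD⟩ := hR M0 M0_mask
  -- the demand from source `x.1` to target `5 + x.2`
  have hM : ∀ x : Fin 5 × Fin 5,
      0 < M0 (Fin.castLE (by norm_num) x.1) (Fin.natAdd 5 x.2) := by
    decide
  let dem : Fin 5 × Fin 5 → (Σ a : Fin 10, Σ b : Fin 10, Fin (M0 a b)) := fun x =>
    ⟨Fin.castLE (by norm_num) x.1, Fin.natAdd 5 x.2, ⟨0, hM x⟩⟩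
  have hdem : Function.Injective dem := by
    intro x y hxy
    have h1 : (Fin.castLE (by norm_num) x.1 : Fin 10) = Fin.castLE (by norm_num) y.1 :=
      congrArg (fun e => e.1) hxy
    have h2 : (Fin.natAdd 5 x.2 : Fin 10) = Fin.natAdd 5 y.2 :=
      congrArg (fun e => e.2.1) hxy
    have h3 : x.1.val = y.1.val := by simpa [Fin.ext_iff] using h1
    have h4 : x.2.val = y.2.val := by simpa [Fin.ext_iff] using h2
    exact Prod.ext (Fin.ext h3) (Fin.ext (by omega))
  have hcross : ∀ x : Fin 5 × Fin 5, ∃ s : Fin 4,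
      ((P (dem x)).vert s.castSucc).val < 5 ∧ 5 ≤ ((P (dem x)).vert s.succ).val := by
    intro x
    obtain ⟨hs, ht⟩ := hJ (dem x)
    apply exists_cross
    · rw [hs]; exact x.1.isLt
    · rw [ht]; exact Nat.le_add_right 5 x.2.val
  choose f hf using hcross
  let g : Fin 5 × Fin 5 → Fin 4 × Fin 5 := fun x =>
    (f x, ⟨((P (dem x)).vert (f x).castSucc).val, (hf x).1⟩)
  have hg : Function.Injective g := by
    intro x y hxy
    by_contra hne
    have hfe : f x = f y := congrArg Prod.fst hxy
    have hve : ((P (dem x)).vert (f x).castSucc).val = ((P (dem y)).vert (f y).castSucc).val :=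
      congrArg (fun z => z.2.val) hxy
    have hd := hD (dem x) (dem y) (fun h => hne (hdem h)) (f x)
    apply hd
    have e1 := (P (dem x)).edge (f x)
    have e2 := (P (dem y)).edge (f y)
    have c1 := L0_cross _ _ (hf x).1 (hf x).2 (lt_of_le_of_lt (Nat.zero_le _) e1.isLt)
    have c2 := L0_cross _ _ (hf y).1 (hf y).2 (lt_of_le_of_lt (Nat.zero_le _) e2.isLt)
    have b1 := lt_of_lt_of_le ((P (dem x)).edge (f x)).isLt (L0_simple _ _)
    have b2 := lt_of_lt_of_le ((P (dem y)).edge (f x)).isLt (L0_simple _ _)
    rw [← hfe] at hve c2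
    refine ⟨Fin.ext hve, Fin.ext ?_, ?_⟩
    · rw [c1, c2, hve]
    · omega
  have hcard := Fintype.card_le_of_injective g hg
  simp at hcard

/-- The Benes conjecture fails: there are a simple regular ordered 2-stage graph `L` and
`m ≥ 1` such that `L^m` is externally connected but `L^(2m)` is not rearrangeable. -/
theorem result :
    ∃ (n k m : ℕ) (L : TwoStage n), 1 ≤ n ∧ 1 ≤ k ∧ 1 ≤ m ∧ IsSimple L ∧ IsRegular L k ∧
      ExternallyConnected L m ∧ ¬ Rearrangeable L (2 * m) :=
  ⟨10, 5, 2, L0, by norm_num, by norm_num, by norm_num, L0_simple, L0_regular, L0_ext,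
    not_rearrangeable⟩

end Pool.Agent.Results.MP_dc8297_co.BenesFalse
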